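import Pool.Agent.H25.BCE.Stmts

/-!
Board bce, modules FDA and FDB: the fundamental domain of the deck group.
-/

set_option autoImplicit false

namespace Pool.Agent.H48.BCE

open Pool.Agent.H25.BCE
open Pool.Agent.H73 (P V ex ey pb solA solG mu0 Gam lin)

theorem c10 (l j : ℤ) (a b : ℝ × ℝ) (x : P 3) :
    (dk l j a b x).1 0 = a.1 + Real.exp (mu0 * l) * x.1 0 := by
  rw [dk_apply, Prod.fst_add, Pi.add_apply, LL_fst]
  simp [trn, wt]

theorem c11 (l j : ℤ) (a b : ℝ × ℝ) (x : P 3) :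
    (dk l j a b x).1 1 = a.2 + Real.exp (-(mu0 * l)) * x.1 1 := by
  rw [dk_apply, Prod.fst_add, Pi.add_apply, LL_fst]
  simp [trn, wt]

theorem c12 (l j : ℤ) (a b : ℝ × ℝ) (x : P 3) :
    (dk l j a b x).1 2 = l + x.1 2 := by
  rw [dk_apply, Prod.fst_add, Pi.add_apply, LL_fst]
  simp [trn, wt]

theorem c20 (l j : ℤ) (a b : ℝ × ℝ) (x : P 3) :
    (dk l j a b x).2 0 = b.1 + Real.exp (-(mu0 * l)) * x.2 0 := by
  rw [dk_apply, Prod.snd_add, Pi.add_apply, LL_snd]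
  simp [trn, wt]

theorem c21 (l j : ℤ) (a b : ℝ × ℝ) (x : P 3) :
    (dk l j a b x).2 1 = b.2 + Real.exp (mu0 * l) * x.2 1 := by
  rw [dk_apply, Prod.snd_add, Pi.add_apply, LL_snd]
  simp [trn, wt]

theorem c22 (l j : ℤ) (a b : ℝ × ℝ) (x : P 3) :
    (dk l j a b x).2 2 = j * Per + x.2 2 := by
  rw [dk_apply, Prod.snd_add, Pi.add_apply, LL_snd]
  simp [trn, wt]

theorem int_zero_of {l : ℤ} {u c : ℝ} (h0 : 0 < u) (h1 : u < c)
    (h2 : 0 < l * c + u) (h3 : l * c + u < c) : l = 0 := by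
  have hc : 0 < c := h0.trans h1
  have h4 : (l : ℝ) < 1 := by
    by_contra h
    push Not at h
    nlinarith
  have h5 : (-1 : ℝ) < l := by
    by_contra h
    push Not at h
    nlinarith
  have h6 : l < 1 := by exact_mod_cast h4
  have h7 : (-1 : ℤ) < l := by exact_mod_cast h5
  omega

theorem FDA_thm (hLA3 : LA3Stmt) (hCCP : CCPStmt) : FDAStmt := by
  rintro g ⟨l, j, a, b, ha, hb, rfl⟩ x hx hg
  obtain ⟨hx1, hx2, hx3, hx4, hx5, hx6⟩ := hx
  obtain ⟨hg1, hg2, hg3, hg4, hg5, hg6⟩ := hg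
  rw [c10, c11] at hg1
  rw [c12] at hg2 hg3
  rw [c20, c21] at hg4
  rw [c22] at hg5 hg6
  have hl : l = 0 := int_zero_of (c := 1) hx2 hx3 (by linarith) (by linarith)
  have hj : j = 0 := int_zero_of hx5 hx6 hg5 hg6
  subst hl
  subst hj
  simp only [Int.cast_zero, mul_zero, neg_zero, Real.exp_zero, one_mul] at hg1 hg4
  have e1 : a = 0 := hLA3.1 a ha (x.1 0, x.1 1) hx1 (by
    have : (x.1 0, x.1 1) + a = (a.1 + x.1 0, a.2 + x.1 1) := by
      refine Prod.ext ?_ ?_ <;> simp [add_comm]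
    rw [this]
    exact hg1)
  have e2 : b = 0 := hLA3.1 b hb (x.2 0, x.2 1) hx4 (by
    have : (x.2 0, x.2 1) + b = (b.1 + x.2 0, b.2 + x.2 1) := by
      refine Prod.ext ?_ ?_ <;> simp [add_comm]
    rw [this]
    exact hg4)
  rw [e1, e2]
  exact dk_one

end Pool.Agent.H48.BCE
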