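import Pool.Agent.H48.BCE.FDA

/-!
Board bce, module FDB: the translates of the fundamental domain are dense.
-/

set_option autoImplicit false

namespace Pool.Agent.H48.BCE

open Pool.Agent.H25.BCE
open Pool.Agent.H73 (P V ex ey pb solA solG mu0 Gam lin)

theorem dk_cont (l j : ℤ) (a b : ℝ × ℝ) : Continuous (fun x : P 3 => dk l j a b x) := by
  have h : (fun x : P 3 => dk l j a b x) = fun x => trn l j a b + (LL l : P 3 →ₗ[ℝ] P 3) x := by
    funext x
    rfl
  rw [h]
  exact continuous_const.add (LinearMap.continuous_of_finiteDimensional _)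

/-- coordinates -/
def psi (z : ((ℝ × ℝ) × ℝ) × ((ℝ × ℝ) × ℝ)) : P 3 :=
  (![z.1.1.1, z.1.1.2, z.1.2], ![z.2.1.1, z.2.1.2, z.2.2])

theorem psi_cont : Continuous psi := by
  refine Continuous.prodMk ?_ ?_
  · refine continuous_pi fun i => ?_
    fin_cases i
    · exact (continuous_fst.comp (continuous_fst.comp continuous_fst))
    · exact (continuous_snd.comp (continuous_fst.comp continuous_fst))
    · exact (continuous_snd.comp continuous_fst)
  · refine continuous_pi fun i => ?_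
    fin_cases i
    · exact (continuous_fst.comp (continuous_fst.comp continuous_snd))
    · exact (continuous_snd.comp (continuous_fst.comp continuous_snd))
    · exact (continuous_snd.comp continuous_snd)

theorem mem_closure_D0 (hP : 0 < Per) (x : P 3) (h1 : (x.1 0, x.1 1) ∈ closure D2)
    (h2 : 0 ≤ x.1 2) (h3 : x.1 2 ≤ 1) (h4 : (x.2 0, x.2 1) ∈ closure D2)
    (h5 : 0 ≤ x.2 2) (h6 : x.2 2 ≤ Per) : x ∈ closure D0 := by
  have hz : ((((x.1 0, x.1 1), x.1 2), ((x.2 0, x.2 1), x.2 2)) :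
      ((ℝ × ℝ) × ℝ) × ((ℝ × ℝ) × ℝ)) ∈
      closure ((D2 ×ˢ Set.Ioo (0 : ℝ) 1) ×ˢ (D2 ×ˢ Set.Ioo (0 : ℝ) Per)) := by
    rw [closure_prod_eq, closure_prod_eq, closure_prod_eq, closure_Ioo (by norm_num),
      closure_Ioo hP.ne]
    exact ⟨⟨h1, h2, h3⟩, ⟨h4, h5, h6⟩⟩
  have hm := map_mem_closure psi_cont hz (t := D0) (by
    rintro ⟨⟨u, s⟩, ⟨v, t⟩⟩ ⟨⟨hu, hs⟩, ⟨hv, ht⟩⟩
    exact ⟨hu, hs.1, hs.2, hv, ht.1, ht.2⟩)
  have hx : psi (((x.1 0, x.1 1), x.1 2), ((x.2 0, x.2 1), x.2 2)) = x := by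
    refine Prod.ext ?_ ?_ <;> funext i <;> fin_cases i <;> rfl
  rw [hx] at hm
  exact hm

theorem exists_shift {c : ℝ} (hc : 0 < c) (u : ℝ) : ∃ j : ℤ, 0 ≤ j * c + u ∧ j * c + u ≤ c := by
  refine ⟨-⌊u / c⌋, ?_, ?_⟩
  · have h := Int.floor_le (u / c)
    rw [le_div_iff₀ hc] at h
    push_cast
    linarith
  · have h := (Int.lt_floor_add_one (u / c)).le
    rw [div_le_iff₀ hc] at h
    push_cast
    linarith

theorem D0_open (hLA3 : LA3Stmt) : IsOpen D0 := by
  have ho := hLA3.2.2.1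
  have e1 : Continuous fun x : P 3 => x.1 0 := (continuous_apply 0).comp continuous_fst
  have e2 : Continuous fun x : P 3 => x.1 1 := (continuous_apply 1).comp continuous_fst
  have e3 : Continuous fun x : P 3 => x.1 2 := (continuous_apply 2).comp continuous_fst
  have f1 : Continuous fun x : P 3 => x.2 0 := (continuous_apply 0).comp continuous_snd
  have f2 : Continuous fun x : P 3 => x.2 1 := (continuous_apply 1).comp continuous_snd
  have f3 : Continuous fun x : P 3 => x.2 2 := (continuous_apply 2).comp continuous_snd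
  have h : D0 = (fun x : P 3 => (x.1 0, x.1 1)) ⁻¹' D2 ∩ ({x : P 3 | 0 < x.1 2} ∩
      ({x : P 3 | x.1 2 < 1} ∩ ((fun x : P 3 => (x.2 0, x.2 1)) ⁻¹' D2 ∩
      ({x : P 3 | 0 < x.2 2} ∩ {x : P 3 | x.2 2 < Per})))) := rfl
  rw [h]
  exact (ho.preimage (e1.prodMk e2)).inter ((isOpen_lt continuous_const e3).inter
    ((isOpen_lt e3 continuous_const).inter ((ho.preimage (f1.prodMk f2)).inter
      ((isOpen_lt continuous_const f3).inter (isOpen_lt f3 continuous_const)))))

theorem D0_bounded (hLA3 : LA3Stmt) : Bornology.IsBounded D0 := by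
  obtain ⟨R, hR⟩ := hLA3.2.2.2.subset_closedBall (0 : ℝ × ℝ)
  have hb : ∀ y ∈ D2, |y.1| ≤ R ∧ |y.2| ≤ R := by
    intro y hy
    have h := hR hy
    rw [mem_closedBall_zero_iff, Prod.norm_def] at h
    exact ⟨(le_max_left _ _).trans h, (le_max_right _ _).trans h⟩
  rw [isBounded_iff_forall_norm_le]
  refine ⟨max R (max 1 |Per|), fun x hx => ?_⟩
  obtain ⟨hx1, hx2, hx3, hx4, hx5, hx6⟩ := hx
  have h1 := hb _ hx1
  have h2 := hb _ hx4
  have hM : (0 : ℝ) ≤ max R (max 1 |Per|) :=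
    le_trans zero_le_one ((le_max_left _ _).trans (le_max_right _ _))
  have i1 : R ≤ max R (max 1 |Per|) := le_max_left _ _
  have i2 : (1 : ℝ) ≤ max R (max 1 |Per|) := (le_max_left _ _).trans (le_max_right _ _)
  have i3 : |Per| ≤ max R (max 1 |Per|) := (le_max_right _ _).trans (le_max_right _ _)
  rw [Prod.norm_def]
  refine max_le ?_ ?_
  · rw [pi_norm_le_iff_of_nonneg hM]
    intro i
    rw [Real.norm_eq_abs]
    fin_cases i
    · exact h1.1.trans i1
    · exact h1.2.trans i1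
    · refine le_trans ?_ i2
      rw [abs_le]
      constructor
      · show (-1 : ℝ) ≤ x.1 2
        linarith
      · exact hx3.le
  · rw [pi_norm_le_iff_of_nonneg hM]
    intro i
    rw [Real.norm_eq_abs]
    fin_cases i
    · exact h2.1.trans i1
    · exact h2.2.trans i1
    · refine le_trans ?_ i3
      show |x.2 2| ≤ |Per|
      rw [abs_of_pos hx5]
      exact hx6.le.trans (le_abs_self _)

theorem FDB_thm (hLA3 : LA3Stmt) (hCCP : CCPStmt) : FDBStmt := by
  have hP : 0 < Per := zero_lt_one.trans hCCP.2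
  refine ⟨D0_open hLA3, D0_bounded hLA3, ?_⟩
  intro x
  obtain ⟨l, hl1, hl2⟩ := exists_shift (c := 1) one_pos (x.1 2)
  obtain ⟨j, hj1, hj2⟩ := exists_shift hP (x.2 2)
  obtain ⟨a, ha, ha'⟩ := hLA3.2.1 (Real.exp (mu0 * l) * x.1 0, Real.exp (-(mu0 * l)) * x.1 1)
  obtain ⟨b, hb, hb'⟩ := hLA3.2.1 (Real.exp (-(mu0 * l)) * x.2 0, Real.exp (mu0 * l) * x.2 1)
  have hg : dk l j a b ∈ G0 := dk_mem ha hb
  have hmem : dk l j a b x ∈ closure D0 := by
    refine mem_closure_D0 hP _ ?_ ?_ ?_ ?_ ?_ ?_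
    · rw [c10, c11]
      have : ((a.1 + Real.exp (mu0 * l) * x.1 0, a.2 + Real.exp (-(mu0 * l)) * x.1 1) : ℝ × ℝ) =
          (Real.exp (mu0 * l) * x.1 0, Real.exp (-(mu0 * l)) * x.1 1) + a := by
        refine Prod.ext ?_ ?_ <;> simp [add_comm]
      rw [this]
      exact ha'
    · rw [c12]
      linarith
    · rw [c12]
      linarith
    · rw [c20, c21]
      have : ((b.1 + Real.exp (-(mu0 * l)) * x.2 0, b.2 + Real.exp (mu0 * l) * x.2 1) : ℝ × ℝ) =
          (Real.exp (-(mu0 * l)) * x.2 0, Real.exp (mu0 * l) * x.2 1) + b := by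
        refine Prod.ext ?_ ?_ <;> simp [add_comm]
      rw [this]
      exact hb'
    · rw [c22]
      exact hj1
    · rw [c22]
      exact hj2
  have hc : Continuous (fun y : P 3 => (dk l j a b)⁻¹ y) := by
    rw [dk_inv]
    exact dk_cont _ _ _ _
  have h := map_mem_closure hc hmem (t := {x : P 3 | ∃ g ∈ G0, g x ∈ D0}) (by
    intro y hy
    refine ⟨dk l j a b, hg, ?_⟩
    have : dk l j a b ((dk l j a b)⁻¹ y) = y := AffineEquiv.apply_symm_apply _ _
    rw [this]
    exact hy)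
  have hx : (dk l j a b)⁻¹ (dk l j a b x) = x := AffineEquiv.symm_apply_apply _ _
  rw [hx] at h
  exact h

end Pool.Agent.H48.BCE
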